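import Pool.Agent.Helper10.Dupin.Final

open Pool.Agent.Helper10.Dupin

namespace Pool.Agent.Results.MP_15a3fc_gt.TautNotDupin

/-- A taut submanifold of a complete Riemannian manifold of nonnegative sectional curvature need
not be Dupin: `ℂ²` with the Cheeger deformation of its flat metric along the Hopf circles and the
unit circle in the first axis. There is no focal leaf at any focal normal whose second component
is nonzero. -/
theorem result :
    (IsCompleteMetric cheeger ∧ NonnegCurved cheeger) ∧
    (IsClosed circle ∧ IsSubmanifold circle 1) ∧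
    IsTaut cheeger circle ∧
    ¬ IsDupin cheeger circle ∧
    ∀ z₀ ∈ focalNormals cheeger circle, z₀.2.2 ≠ 0 → ∀ S, ¬ IsFocalLeaf cheeger circle S z₀ :=
  ⟨⟨complete_cheeger, nonneg_cheeger⟩, circle_sub, taut_circle, not_dupin,
    fun _ hz hw S => no_leaf hz hw S⟩

end Pool.Agent.Results.MP_15a3fc_gt.TautNotDupin
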